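import Mathlib

/-!
# Project CB (helper264): combinatorial types of arrangements of planar convex bodies (MP_f9fe38_co)

The plane is `ℂ`, the cylinder is `Circle × ℝ`.
-/

namespace Pool.Agent.Q264.CB

/-- The inner product of `z` with the unit vector `u`. -/
def ip (z : ℂ) (u : Circle) : ℝ := z.re * (u : ℂ).re + z.im * (u : ℂ).im

/-- The support function `h_A (u) = max_{z ∈ A} ⟨z, u⟩`. -/
noncomputable def supp (A : Set ℂ) (u : Circle) : ℝ := sSup ((fun z : ℂ => ip z u) '' A)

/-- The support curve of `A`: the graph of its support function in the cylinder. -/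
def curve (A : Set ℂ) : Set (Circle × ℝ) := {p | p.2 = supp A p.1}

/-- An arrangement of nonempty compact convex sets in which every two bodies have at most `t` common supporting
tangents (the common supporting tangents of two bodies correspond to the `u` at which their support functions agree):
no intersection point of two bodies lies on a common supporting tangent, no three bodies share a common supporting
tangent, and there are finitely many common supporting tangents. -/
structure IsArrangement {ι : Type} (t : ℕ) (A : ι → Set ℂ) : Prop where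
  body : ∀ i, (A i).Nonempty ∧ IsCompact (A i) ∧ Convex ℝ (A i)
  transversal : ∀ i j, i ≠ j → ∀ u : Circle, supp (A i) u = supp (A j) u →
    ∀ z : ℂ, z ∈ A i → z ∈ A j → ip z u ≠ supp (A i) u
  noTriple : ∀ i j k, i ≠ j → i ≠ k → j ≠ k → ∀ u : Circle,
    ¬ (supp (A i) u = supp (A j) u ∧ supp (A j) u = supp (A k) u)
  tangents : ∀ i j, i ≠ j → {u : Circle | supp (A i) u = supp (A j) u}.Finite ∧
    {u : Circle | supp (A i) u = supp (A j) u}.ncard ≤ t

/-- `φ` preserves `+∞` and carries the curve of `A i` onto that of `B i` for all `i ∈ S`. -/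
def Carries {ι : Type} (φ : (Circle × ℝ) ≃ₜ (Circle × ℝ)) (S : Set ι) (A B : ι → Set ℂ) : Prop :=
  (∃ Y : ℝ, ∀ (u : Circle) (y : ℝ), Y ≤ y → 0 < (φ (u, y)).2) ∧ ∀ i ∈ S, φ '' curve (A i) = curve (B i)

/-- The sub-arrangements on `S` have the same combinatorial type: some self-homeomorphism of the cylinder that preserves
`+∞` and the orientation (it is homotopic to the identity) carries curve to curve. -/
def SameType {ι : Type} (S : Set ι) (A B : ι → Set ℂ) : Prop :=
  ∃ φ : (Circle × ℝ) ≃ₜ (Circle × ℝ),
    ContinuousMap.Homotopic (φ : C(Circle × ℝ, Circle × ℝ)) (ContinuousMap.id _) ∧ Carries φ S A B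

/-- An ellipse with semiaxes `a, b` and centre `(0, s)`. -/
def body (a b s : ℝ) : Set ℂ := (fun z : ℂ => (⟨a * z.re, b * z.im + s⟩ : ℂ)) '' Metric.closedBall 0 1

/-- The chain: a small disc with centre `(0, 1)`, then `2 l` ellipses, elongated in the direction of the `x`-axis and of
the `y`-axis in turn, and a large disc with centre `(0, σ)`. -/
def fam (l : ℕ) (σ : ℝ) (i : Fin (2 * l + 2)) : Set ℂ :=
  if i.val = 0 then body 2 2 1
  else if i.val = 2 * l + 1 then body (4 * l + 3) (4 * l + 3) σ
  else if i.val % 2 = 1 then body (2 * i.val + 3) (2 * i.val) 0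
  else body (2 * i.val) (2 * i.val + 3) 0

end Pool.Agent.Q264.CB
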