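import Pool.Agent.Q264.CB.Stm

namespace Pool.Agent.Q264.CB

theorem main (hARR : S_ARR) (hSUB : S_SUB) (hNOT : S_NOT) : ∀ t m : ℕ, 4 ≤ t →
    ∃ (n : ℕ) (A B : Fin n → Set ℂ), m < n ∧ IsArrangement t A ∧ IsArrangement t B ∧
      (∀ S : Set (Fin n), S ≠ Set.univ → SameType S A B) ∧
      ¬ ∃ φ : (Circle × ℝ) ≃ₜ (Circle × ℝ), Carries φ Set.univ A B := by
  intro t m ht
  have mono : ∀ (n : ℕ) (A : Fin n → Set ℂ), IsArrangement 4 A → IsArrangement t A := by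
    intro n A h
    exact ⟨h.body, h.transversal, h.noTriple, fun i j hij => ⟨(h.tangents i j hij).1,
      (h.tangents i j hij).2.trans ht⟩⟩
  refine ⟨2 * (m + 1) + 2, fam (m + 1) (-1), fam (m + 1) 1, by omega, ?_, ?_, ?_, ?_⟩
  · exact mono _ _ (hARR (m + 1) (-1) (by omega) (Or.inr rfl))
  · exact mono _ _ (hARR (m + 1) 1 (by omega) (Or.inl rfl))
  · exact hSUB (m + 1) (by omega)
  · exact hNOT (m + 1) (by omega)

end Pool.Agent.Q264.CB
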