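import Pool.Agent.Q264.CB.Def

/-!
# Project CB (helper264): lemma statements (MP_f9fe38_co)

The support curves of `fam l σ` form a chain: only consecutive ones cross. Leaving one out, the part above it can be
rotated by `π` against the part below it; with all of them this is impossible.
-/

namespace Pool.Agent.Q264.CB

/-- The root `√((a cos)² + (b sin)²)` in the support function of an ellipse. -/
noncomputable def rt (a b : ℝ) (u : Circle) : ℝ := Real.sqrt ((a * (u : ℂ).re) ^ 2 + (b * (u : ℂ).im) ^ 2)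

/-- **SUPP.** The support function of an ellipse; the point where the supporting tangent touches the ellipse; the
ellipse is a body. Write `c = u.re`, `s = u.im`, `c² + s² = 1` (`Circle.normSq_coe`, `Complex.normSq_apply`),
`N = rt a b u > 0` (as `a, b > 0`, `c, s` not both `0`).
PROOF. For `z = (a w.re, b w.im + t)` with `‖w‖ ≤ 1` (so `w.re² + w.im² ≤ 1`): `ip z u = a c w.re + b s w.im + t s`, and
`(a c w.re + b s w.im)² ≤ (a² c² + b² s²)(w.re² + w.im²) ≤ N²` (the difference is `(a c w.im - b s w.re)² ≥ 0`), so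
`ip z u ≤ t s + N`, with equality only if `(a c w.im - b s w.re)² = 0` and `a c w.re + b s w.im = N` (so
`w.re² + w.im² = 1`), which give `w.re = a c / N`, `w.im = b s / N` (indeed
`N² w.re = (a²c² + b²s²) w.re = a c (a c w.re + b s w.im) + b s (b s w.re - a c w.im) = a c N`). The value `t s + N` is
attained at `w = (a c / N, b s / N)`. So the supremum is `t s + N` (`IsGreatest.csSup_eq` or `le_antisymm` with
`csSup_le`, `le_csSup`). Compactness: image of the compact ball under a continuous map. Convexity: the map is affine: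
check `convex_iff_forall_pos` by hand, or write it as the image of the convex ball under a linear map, translated. -/
def S_SUPP : Prop := ∀ a b t : ℝ, 0 < a → 0 < b →
  (∀ u : Circle, supp (body a b t) u = t * (u : ℂ).im + rt a b u) ∧
  (∀ (u : Circle) (z : ℂ), z ∈ body a b t → ip z u = supp (body a b t) u →
    z.re = a ^ 2 * (u : ℂ).re / rt a b u ∧ z.im = t + b ^ 2 * (u : ℂ).im / rt a b u) ∧
  (body a b t).Nonempty ∧ IsCompact (body a b t) ∧ Convex ℝ (body a b t)

/-- **CNT.** PROOF. The set of real roots of `α x² + β x + γ` has at most two elements (if `x ≠ y` are two roots, then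
`α (x + y) + β = 0`, so a third root `z ≠ x, y` would satisfy `z = y`; or use `Polynomial.card_roots'`), and every value
of `u.im` is attained by at most two `u` (`u.re = ± √(1 - u.im²)`). E.g. the map `u ↦ (u.im, 0 ≤ u.re)` to
`ℝ × Prop`/`ℝ × Bool` is injective and the image of the set lies in `{x, y} × Bool` (`Set.ncard_le_ncard_of_injOn`,
`Set.Finite.of_injOn`). -/
def S_CNT : Prop := ∀ α β γ : ℝ, α ≠ 0 →
  {u : Circle | α * (u : ℂ).im ^ 2 + β * (u : ℂ).im + γ = 0}.Finite ∧
  {u : Circle | α * (u : ℂ).im ^ 2 + β * (u : ℂ).im + γ = 0}.ncard ≤ 4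

/-- **TOP.** A homeomorphism that preserves `+∞` and maps the graph of `F` onto that of `G` maps the part above the one
graph into the part above the other one, and the same for the parts below.
PROOF. Let `U_F = {p | F p.1 < p.2}`, `L_F = {p | p.2 < F p.1}`. Both are preconnected: `U_F` is the image of
`univ ×ˢ Ioi 0` (preconnected: `Circle` is connected, e.g. as the image of `ℝ` under `Circle.exp`) under the continuous
map `(u, y) ↦ (u, y + F u)`; the same for `L_F` with `Iio 0`. `φ '' U_F` is preconnected and contained in the disjoint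
union of the open sets `U_G`, `L_G`: by injectivity it avoids `φ '' graph F = graph G`; so it is contained in one of
them (`IsPreconnected.subset_or_subset` or `IsPreconnected.subset_left_of_subset_union`).
(1) It is not contained in `L_G`: `F ≤ M`, `G ≤ M'` by compactness. Then for `y ≥ max Y (M + 1)` the point `φ (u, y)`
would have its second coordinate in `(0, M')`, so `(u, y)` lies in the compact set `φ⁻¹ (univ ×ˢ Icc 0 M')`, whose second
coordinates are bounded: contradiction for `y → ∞`. So `φ '' U_F ⊆ U_G`.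
(2) If `φ '' L_F ⊆ U_G` then nothing is mapped to the point `(1, G 1 - 1)`, which is not on `graph G`:
`φ` is surjective, its preimage is not on `graph F` (else the image is on `graph G`), so it is in `U_F` or `L_F` and its
image is in `U_G`, contradiction. So `φ '' L_F ⊆ L_G`. -/
def S_TOP : Prop := ∀ (φ : (Circle × ℝ) ≃ₜ (Circle × ℝ)) (F G : Circle → ℝ), Continuous F → Continuous G →
  (∃ Y : ℝ, ∀ (u : Circle) (y : ℝ), Y ≤ y → 0 < (φ (u, y)).2) →
  φ '' {p | p.2 = F p.1} = {p | p.2 = G p.1} →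
  ∀ p : Circle × ℝ, (F p.1 < p.2 → G (φ p).1 < (φ p).2) ∧ (p.2 < F p.1 → (φ p).2 < G (φ p).1)

/-- **TWIST.** PROOF. `φ (u, y) = (u * Circle.exp (π * s y), y)`, with inverse `(v, y) ↦ (v * Circle.exp (-(π * s y)), y)`;
the homotopy to the identity is `(τ, (u, y)) ↦ (u * Circle.exp ((1 - τ) * (π * s y)), y)`. -/
def S_TWIST : Prop := ∀ s : ℝ → ℝ, Continuous s → ∃ φ : (Circle × ℝ) ≃ₜ (Circle × ℝ),
  (∀ (u : Circle) (y : ℝ), φ (u, y) = (u * Circle.exp (Real.pi * s y), y)) ∧
  (∀ (u : Circle) (y : ℝ), φ.symm (u, y) = (u * Circle.exp (-(Real.pi * s y)), y)) ∧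
  ContinuousMap.Homotopic (φ : C(Circle × ℝ, Circle × ℝ)) (ContinuousMap.id _)

/-- **ARR** (hypotheses `hSUPP : S_SUPP`, `hCNT : S_CNT`). The chain is an arrangement.
PROOF. Write `c = u.re`, `s = u.im`, `c² + s² = 1`, `H i u = supp (fam l σ i) u`. By SUPP:
`H 0 = s + 2` (`rt 2 2 u = 2`), `H (2l+1) = σ s + R` with `R = 4l + 3`, and for `1 ≤ i ≤ 2l`, `H i = rt a b u` with
`{a, b} = {2i, 2i + 3}`, so `2i ≤ H i ≤ 2i + 3` (since `(2i)² ≤ a²c² + b²s² ≤ (2i+3)²`); this also holds for `i = 2l + 1`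
(`4l + 2 ≤ R + σ s ≤ 4l + 4`), and `1 ≤ H 0 ≤ 3`. So `H i u = H j u`, `i < j` implies `j = i + 1`
(`j ≥ i + 2` gives `H j ≥ 2j ≥ 2i + 4 > 2i + 3 ≥ H i`).
body: by SUPP. noTriple: `H i u = H j u = H k u` with `i, j, k` distinct: two of them differ by at least `2`.
tangents: if `i, j` are not consecutive the set is empty. Otherwise let `i, j = i + 1` (the other case by symmetry);
`H i u = H j u` iff the squares agree (both are positive):
* `i = 0`, `j = 1` (`l ≥ 1`, so `1 ≠ 2l+1`): `(2 + s)² = 25 c² + 4 s²` iff `22 s² + 4 s + (-21) = 0`;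
* `1 ≤ i`, `j ≤ 2l`: `a²c² + b²s² = a'²c² + b'²s²` iff `(b² - a² - b'² + a'²) s² + 0 s + (a² - a'²) = 0`; if `i` is odd,
  `a = 2i+3, b = 2i, a' = 2i+2, b' = 2i+5`, so `b² - a² < 0` and `a'² - b'² < 0`; if `i` is even, all signs are opposite;
  so the coefficient of `s²` is not zero;
* `i = 2l`, `j = 2l + 1`: `16 l² c² + R² s² = (R + σ s)²` iff `(1 + 16 l² - R²) s² + 2 R σ s + (R² - 16 l²) = 0`
  (`σ² = 1`), `1 + 16 l² - R² < 0`.
So CNT applies. transversal: let `H i u = H j u` (so `j = i ± 1`, say `j = i + 1`), and suppose `z` is in both bodies and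
`ip z u = H i u`. By the touching formula of SUPP for both bodies, `z.re` and `z.im` have two expressions:
* `1 ≤ i`, `j ≤ 2l`: the roots `rt a b u = rt a' b' u = N > 0` are equal, so `a² c = a'² c`, `b² s = b'² s`; `a ≠ a'`,
  `b ≠ b'` are positive, so `c = s = 0`, contradiction.
* `i = 0`, `j = 1`: `z.re = 4c/2 = 25 c / (2 + s)` (the root of `f_1` is `H 1 u = H 0 u = 2 + s`), so `c = 0` or
  `2 (2 + s) = 25`, impossible as `s ≤ 1`; so `s = ± 1`, `H 1 u = √4 = 2` but `H 0 u = 2 ± 1`.
* `i = 2l`, `j = 2l + 1`: `z.re = R c = 16 l² c / (R + σ s)`, so `c = 0` or `R (R + σ s) = 16 l²`, impossible as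
  `R (R - 1) > 16 l²`; so `s = ± 1`, and `H i u = R` but `H j u = R + σ s = R ± 1`. -/
def S_ARR : Prop := ∀ (l : ℕ) (σ : ℝ), 1 ≤ l → (σ = 1 ∨ σ = -1) → IsArrangement 4 (fam l σ)

/-- **SUB** (hypotheses `hSUPP : S_SUPP`, `hTWIST : S_TWIST`). Leaving out one body, the two chains have the same type.
PROOF. `H^σ i u = supp (fam l σ i) u`; the ranges are as in ARR: `H i u ≤ 2i + 3` and, for `i ≥ 1`, `2i ≤ H i u`. Only
`H^σ (2l+1) u = R + σ u.im` (`R = 4l + 3`) depends on `σ`. For `1 ≤ i ≤ 2l`, `H i (-u) = H i u` and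
`H^{-1} (2l+1) (-u) = H^{1} (2l+1) u`. Here `-u = u * Circle.exp π` (`Circle` has no `neg`: its real and imaginary part
are those of `u` negated). Let `k ∉ S` (`S ≠ univ`), and take the homeomorphism `φ` of TWIST for `s y = 1` if `k = 0`,
`s y = 0` if `k = 2l + 1`, and `s y = max 0 (min 1 (y - (2k+1)))` if `1 ≤ k ≤ 2l`. `+∞`: `(φ (u, y)).2 = y`, take
`Y = 1`. For `i ∈ S`, `φ '' curve (A i) = curve (B i)` (`A = fam l (-1)`, `B = fam l 1`): if `s = 0` on the whole range of
`H i` (`i < k`, then `H i ≤ 2k + 1`) then `A i = B i` and `φ` fixes the curve pointwise (use `φ.symm` for the reverse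
inclusion); if `s = 1` on the whole range (`i > k`, then `2k + 2 ≤ H i`), then `φ (u, H^A i u) = (-u, H^A i u)`, which is
on the curve of `B i` as `H^B i (-u) = H^A i u`; conversely the same with `φ.symm` and
`u * Circle.exp (-π)`. -/
def S_SUB : Prop := ∀ (l : ℕ), 1 ≤ l → ∀ S : Set (Fin (2 * l + 2)), S ≠ Set.univ →
  SameType S (fam l (-1)) (fam l 1)

/-- **NOT** (hypotheses `hSUPP : S_SUPP`, `hTOP : S_TOP`). The two chains are not of the same type, not even by a
homeomorphism that reverses the orientation.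
PROOF. Let `φ` carry `A = fam l (-1)` to `B = fam l 1`, preserving `+∞`; `F i u = rt a b u` the support function of the
body `i`, `1 ≤ i ≤ 2l`, `G u = 2 + s`, `h^A u = R - s`, `h^B u = R + s` (`s = u.im`, `R = 4l + 3`). All are continuous, so
by TOP `φ` maps the points above (below) the `i`-th curve of `A` to points above (below) the `i`-th curve of `B`. Let
`u₀ = i` (`Circle.exp (π/2)`; real part `0`, imaginary part `1`), and consider the path `y ↦ φ (u₀, y) =: (v, w)`,
`2.5 ≤ y ≤ 4l + 2.5`.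
(1) `v.im ≠ 0` for all these `y`: pick `j`, `1 ≤ j ≤ l`, with `4j - 2 < y < 4j + 3` (these open intervals cover
`[2.5, 4l + 2.5]`). `F (2j-1) u₀ = 2(2j-1) = 4j - 2 < y` and `y < 4j + 3 = F (2j) u₀`, so
`F (2j-1) v < w < F (2j) v`. If `v.im = 0` then `v.re² = 1` and `F (2j-1) v = 2(2j-1) + 3 = 4j + 1 > 4j = F (2j) v`,
contradiction.
(2) `y = 2.5`: `F 1 u₀ = 2 < y < 3 = G u₀`, so `F 1 v < G v = 2 + v.im`. If `v.im ≤ 0` then
`F 1 v = √(25 - 21 v.im²) ≥ 2 ≥ G v`, contradiction. So `v.im > 0`.
(3) `y = 4l + 2.5`: `h^A u₀ = 4l + 2 < y < 4l + 3 = F (2l) u₀`, so `R + v.im < w < F (2l) v ≤ R`, so `v.im < 0`.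
By the intermediate value theorem for the continuous `y ↦ (φ (u₀, y)).1.im` this is a contradiction. -/
def S_NOT : Prop := ∀ (l : ℕ), 1 ≤ l →
  ¬ ∃ φ : (Circle × ℝ) ≃ₜ (Circle × ℝ), Carries φ Set.univ (fam l (-1)) (fam l 1)

end Pool.Agent.Q264.CB
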